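import Pool.Agent.Work.MP_acc68d_an.Proof

open MeasureTheory Filter Topology
open scoped ENNReal

namespace Pool.Agent.Results.MP_acc68d_an.TwoSidedCones

/-- **Full answer to Q1 (affirmative).** For all `n` and `0 < α ≤ 1` there is `c > 0` such that
for every non-atomic finite nonzero Borel measure `μ` on `ℝⁿ` and `μ`-almost every `x` there is
a direction `θ` with
`limsup_{r ↓ 0} min (μ (X⁺(x,r,θ,α))) (μ (X⁺(x,r,-θ,α))) / μ (B(x,r)) > c`. -/
theorem result (n : ℕ) (α : ℝ) (hα0 : 0 < α) (_hα1 : α ≤ 1) :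
    ∃ c : ℝ, 0 < c ∧ ∀ μ : Measure (EuclideanSpace ℝ (Fin n)), IsFiniteMeasure μ → μ ≠ 0 →
      (∀ x, μ {x} = 0) →
      ∀ᵐ x ∂μ, ∃ θ ∈ Metric.sphere (0 : EuclideanSpace ℝ (Fin n)) 1,
        limsup (fun r : ℝ => min (μ (cone x r θ α)) (μ (cone x r (-θ) α)) /
          μ (Metric.closedBall x r)) (𝓝[>] 0) > ENNReal.ofReal c :=
  main_cones n α hα0 _hα1

end Pool.Agent.Results.MP_acc68d_an.TwoSidedCones
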